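import Pool.Agent.helper73.BRZ.Spec

/-!
# Project brz (MP_a2a22c_al), row DSA
-/

set_option autoImplicit false

namespace Pool.Agent.BRZ

open Matrix Module Pool.Agent.PR Pool.Agent.SHL TensorProduct MeasureTheory
open scoped ENNReal ContDiff RealInnerProductSpace FourierTransform SchwartzMap

open Classical in
/-- the shell function -/
noncomputable def DSA_h (T ν : ℝ) : ℝ≥0∞ := if 1 ≤ T * ν ∧ T * ν ≤ 2 then 1 else 0

theorem DSA_h_meas (T : ℝ) : Measurable (DSA_h T) := by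
  unfold DSA_h
  apply Measurable.ite _ measurable_const measurable_const
  exact (measurableSet_le measurable_const (measurable_const.mul measurable_id)).inter
    (measurableSet_le (measurable_const.mul measurable_id) measurable_const)

theorem DSA_h_mul (T ν : ℝ) : DSA_h T ν = DSA_h 1 (T * ν) := by
  unfold DSA_h
  rw [one_mul]

section

variable {d : ℕ} {D : Type} [DivisionRing D] [Algebra ℚ D]

theorem DSA_phi (S : SO d D) (hcont : Continuous S.dl) (f : EE (d * d) → ℝ) (hf : S.Test f)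
    (r : ℝ) : ENNReal.ofReal (S.PhiF f r) =
      ∫⁻ g, DSA_h r (S.dl g) * ENNReal.ofReal (f g) * ENNReal.ofReal ((S.dl g)⁻¹) := by
  obtain ⟨hsm, hcs, hnn, hne, _⟩ := hf
  have hfc : Continuous f := hsm.continuous
  have hdiv : Continuous (fun g => f g * (S.dl g)⁻¹) := by
    rw [continuous_iff_continuousAt]
    intro g
    by_cases hg : g ∈ tsupport f
    · exact hfc.continuousAt.mul (hcont.continuousAt.inv₀ (hne g hg))
    · have h1 : f =ᶠ[nhds g] 0 := notMem_tsupport_iff_eventuallyEq.1 hg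
      have h2 : (fun g => f g * (S.dl g)⁻¹) =ᶠ[nhds g] fun _ => 0 := by
        filter_upwards [h1] with x hx
        rw [hx, Pi.zero_apply, zero_mul]
      exact (continuousAt_const (y := (0 : ℝ))).congr h2.symm
  have hint : Integrable (fun g => f g * (S.dl g)⁻¹) :=
    hdiv.integrable_of_hasCompactSupport (hcs.mul_right)
  have hA : MeasurableSet {g : EE (d * d) | 1 ≤ r * S.dl g ∧ r * S.dl g ≤ 2} := by
    have hm : Measurable fun g : EE (d * d) => r * S.dl g := measurable_const.mul hcont.measurable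
    exact (measurableSet_le measurable_const hm).inter (measurableSet_le hm measurable_const)
  have hint2 := hint.indicator hA
  have e1 : S.PhiF f r = ∫ g, {g : EE (d * d) | 1 ≤ r * S.dl g ∧ r * S.dl g ≤ 2}.indicator
      (fun g => f g * (S.dl g)⁻¹) g := by
    unfold SO.PhiF
    congr 1
    funext g
    rw [Set.indicator_apply]
    rfl
  have hdl : ∀ g, 0 ≤ (S.dl g)⁻¹ := fun g => inv_nonneg.2 (abs_nonneg _)
  rw [e1, ofReal_integral_eq_lintegral_ofReal hint2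
    (Filter.Eventually.of_forall fun g => Set.indicator_nonneg
      (fun g _ => mul_nonneg (hnn g) (hdl g)) g)]
  congr 1
  funext g
  rw [Set.indicator_apply]
  unfold DSA_h
  by_cases hc : 1 ≤ r * S.dl g ∧ r * S.dl g ≤ 2
  · rw [if_pos hc, if_pos (show g ∈ {g : EE (d * d) | 1 ≤ r * S.dl g ∧ r * S.dl g ≤ 2} from hc),
      one_mul, ENNReal.ofReal_mul (hnn g)]
  · rw [if_neg hc, if_neg (show g ∉ {g : EE (d * d) | 1 ≤ r * S.dl g ∧ r * S.dl g ≤ 2} from hc),
      zero_mul, zero_mul, ENNReal.ofReal_zero]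

theorem DSA_act0 (S : SO d D) (g : EE (d * d)) : S.act 0 g = 0 := by
  unfold SO.act
  rw [TensorProduct.tmul_zero, zero_mul, map_zero]

theorem DSA_sum (S : SO d D) (f : EE (d * d) → ℝ) (hf0 : f 0 = 0) (hnn : ∀ g, 0 ≤ f g) (Y : S.LY)
    (g : EE (d * d)) (hs : Summable (fun z : Y.1 => f (S.act z g))) :
    (∑' z : {z : Y.1 // z ≠ 0}, ENNReal.ofReal (f (S.act z.1 g))) =
      ENNReal.ofReal (∑' z : Y.1, f (S.act z g)) := by
  rw [ENNReal.ofReal_tsum_of_nonneg (fun z => hnn _) hs]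
  exact tsum_subtype_eq_of_support_subset (s := {z : Y.1 | z ≠ 0})
    (f := fun z : Y.1 => ENNReal.ofReal (f (S.act z g))) (by
      intro z hz
      rw [Function.mem_support] at hz
      intro h0
      apply hz
      have h1 : z = 0 := h0
      rw [h1]
      show ENNReal.ofReal (f (S.act ((0 : Y.1) : D) g)) = 0
      rw [AddSubgroup.coe_zero, DSA_act0, hf0, ENNReal.ofReal_zero])

end

theorem DSA (hRAL : RAL_stmt) (_hIDX : IDX_stmt) (hDSO : DSO_stmt) (hQSC : QSC_stmt)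
    (hCTY : CTY_stmt) (hPHI : PHI_stmt) : DSA_stmt := by
  intro d D _ _ _ hd hcen S hq f hf
  obtain ⟨_, _, hcont, _, _, _, _, _, _, hdl0, _⟩ := hRAL d D hd S
  obtain ⟨C0, hC0⟩ := hDSO d D hd S f hf
  obtain ⟨w, hwm, hw1, hw2⟩ := hQSC d D hd S
  obtain ⟨_, hPnn, hP0, hWt⟩ := hPHI d D hd S f hf
  have hcty := hCTY d D hd hcen S hq
  have hfnn : ∀ g, 0 ≤ f g := hf.2.2.1
  have hfm : Measurable f := hf.1.continuous.measurable
  have hf0 : f 0 = 0 := by
    by_contra h0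
    exact hf.2.2.2.1 0 (subset_tsupport f h0) hdl0
  obtain ⟨I, hI⟩ : ∃ I, I = ∫ x, f x := ⟨_, rfl⟩
  have hI0 : 0 < I := by rw [hI]; exact hf.2.2.2.2
  obtain ⟨C, hC⟩ : ∃ C, C = max C0 0 := ⟨_, rfl⟩
  have hCnn : 0 ≤ C := by rw [hC]; exact le_max_right _ _
  have hCC : C0 ≤ C := by rw [hC]; exact le_max_left _ _
  have hix : ∀ Y : S.LY, (0 : ℝ) < S.ix Y := by
    intro Y
    have : 0 < S.ix Y := Nat.pos_of_ne_zero Y.2.2.2
    exact_mod_cast this
  have hnum : ∀ Y : S.LY, Measurable fun g => S.nu g Y := fun Y =>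
    hcont.measurable.div_const _
  have hdlm : Measurable fun g => ENNReal.ofReal ((S.dl g)⁻¹) :=
    hcont.measurable.inv.ennreal_ofReal
  have hnu0 : ∀ (g : EE (d * d)) (Y : S.LY), S.dl g ≠ 0 → 0 < S.nu g Y := by
    intro g Y hg
    have h1 : 0 < S.dl g := lt_of_le_of_ne (abs_nonneg _) (Ne.symm hg)
    exact div_pos h1 (hix Y)
  -- the inner sum
  have hsum : ∀ (g : EE (d * d)) (Y : S.LY), S.dl g ≠ 0 → ∃ s : ℝ, 0 ≤ s ∧
      (∑' z : {z : Y.1 // z ≠ 0}, ENNReal.ofReal (f (S.act z.1 g))) = ENNReal.ofReal s ∧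
      s ≤ (S.nu g Y)⁻¹ * I + C * S.nu g Y ∧ (S.nu g Y)⁻¹ * I ≤ s + C * S.nu g Y := by
    intro g Y hg
    obtain ⟨h1, h2⟩ := hC0 Y g hg
    rw [← hI, abs_le] at h2
    have h3 : C0 * S.nu g Y ≤ C * S.nu g Y := mul_le_mul_of_nonneg_right hCC (hnu0 g Y hg).le
    exact ⟨_, tsum_nonneg fun z => hfnn _, DSA_sum S f hf0 hfnn Y g h1, by linarith [h2.2],
      by linarith [h2.1]⟩
  let J : ℝ → ℝ≥0∞ := fun T => ∑' Y : S.LY, ENNReal.ofReal (S.PhiF f (T / S.ix Y))
  have hJ2 : ∀ T, J T = ∑' Y : S.LY, ∫⁻ g, w g Y * DSA_h T (S.nu g Y) *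
      (∑' z : {z : Y.1 // z ≠ 0}, ENNReal.ofReal (f (S.act z.1 g))) *
        ENNReal.ofReal ((S.dl g)⁻¹) := by
    intro T
    rw [hw1 (DSA_h T) (fun g => ENNReal.ofReal (f g)) (DSA_h_meas T) hfm.ennreal_ofReal]
    show (∑' Y : S.LY, ENNReal.ofReal (S.PhiF f (T / S.ix Y))) = _
    refine tsum_congr fun Y => ?_
    rw [DSA_phi S hcont f hf]
    congr 1
    funext g
    have e : DSA_h (T / S.ix Y) (S.dl g) = DSA_h T (S.nu g Y) := by
      rw [DSA_h_mul, DSA_h_mul T]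
      congr 1
      unfold SO.nu
      ring
    rw [e]
  -- finiteness
  have hJfin : ∀ T, 0 < T → J T ≠ ⊤ := by
    intro T hT
    obtain ⟨_, _, _, ⟨a, b, ha, hab⟩, _⟩ := hWt
    have e1 : J T = ∑' m : ℕ, (cc d m : ℝ≥0∞) * ENNReal.ofReal (S.PhiF f (T / ((m ^ d : ℕ) : ℝ))) :=
      hcty fun m => ENNReal.ofReal (S.PhiF f (T / (m : ℝ)))
    obtain ⟨t, ht⟩ : ∃ t, t = T ^ ((d : ℝ)⁻¹) := ⟨_, rfl⟩
    have ht0 : 0 < t := by rw [ht]; positivity
    have htd : t ^ d = T := by rw [ht]; exact Real.rpow_inv_natCast_pow hT.le hd.ne'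
    have hz : ∀ m ∉ Finset.range (⌊t / a⌋₊ + 1),
        (cc d m : ℝ≥0∞) * ENNReal.ofReal (S.PhiF f (T / ((m ^ d : ℕ) : ℝ))) = 0 := by
      intro m hm
      rw [Finset.mem_range, not_lt] at hm
      have hm1 : t / a < m := (Nat.floor_lt (by positivity)).1 (by omega)
      have hm0 : (0 : ℝ) < m := lt_of_le_of_lt (by positivity) hm1
      have h3 : t / m < a := by
        rw [div_lt_iff₀ hm0]
        rw [div_lt_iff₀ ha] at hm1
        linarith
      have h4 : (if 0 < t / m then S.PhiF f ((t / m) ^ d) else 0) = 0 := by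
        by_contra h5
        have h6 := (hab (t / m) h5).1
        linarith
      rw [if_pos (by positivity), div_pow, htd] at h4
      push_cast
      rw [h4, ENNReal.ofReal_zero, mul_zero]
    rw [e1, tsum_eq_sum hz]
    refine (ENNReal.sum_lt_top.2 fun m _ => ?_).ne
    exact ENNReal.mul_lt_top (ENNReal.natCast_lt_top _) ENNReal.ofReal_lt_top
  let Wf : (ℝ → ℝ≥0∞) → ℝ≥0∞ := fun k => ∑' Y : S.LY, ∫⁻ g, w g Y * k (S.nu g Y) *
    ENNReal.ofReal ((S.dl g)⁻¹)
  have hWfm : ∀ (k : ℝ → ℝ≥0∞), Measurable k → ∀ Y : S.LY, Measurable fun g => w g Y *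
      k (S.nu g Y) * ENNReal.ofReal ((S.dl g)⁻¹) := fun k hk Y =>
    ((hwm Y).mul (hk.comp (hnum Y))).mul hdlm
  have hWfc : ∀ (c : ℝ≥0∞) (k : ℝ → ℝ≥0∞), Measurable k →
      (∑' Y : S.LY, ∫⁻ g, c * (w g Y * k (S.nu g Y) * ENNReal.ofReal ((S.dl g)⁻¹))) =
        c * Wf k := by
    intro c k hk
    show _ = c * ∑' Y : S.LY, _
    rw [← ENNReal.tsum_mul_left]
    refine tsum_congr fun Y => ?_
    rw [lintegral_const_mul _ (hWfm k hk Y)]
  obtain ⟨k2, hk2⟩ : ∃ k2 : ℝ → ℝ≥0∞, k2 = fun ν => DSA_h 1 ν * ENNReal.ofReal (ν⁻¹) := ⟨_, rfl⟩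
  have hk2m : Measurable k2 := by
    rw [hk2]
    exact (DSA_h_meas 1).mul measurable_id.inv.ennreal_ofReal
  obtain ⟨κ, hκ⟩ : ∃ κ, κ = Wf (DSA_h 1) := ⟨_, rfl⟩
  obtain ⟨κ2, hκ2⟩ : ∃ κ2, κ2 = Wf k2 := ⟨_, rfl⟩
  have hκT : ∀ T, 0 < T → Wf (DSA_h T) = κ := by
    intro T hT
    rw [hκ]
    have h1 := hw2 (DSA_h 1) T (DSA_h_meas 1) hT
    have e : DSA_h T = fun ν => DSA_h 1 (T * ν) := by
      funext ν
      exact DSA_h_mul T ν
    rw [e]
    exact h1
  have hkT : ∀ T, 0 < T → ∀ ν, DSA_h T ν * ENNReal.ofReal (ν⁻¹) = ENNReal.ofReal T * k2 (T * ν) := by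
    intro T hT ν
    rw [hk2]
    show _ = ENNReal.ofReal T * (DSA_h 1 (T * ν) * ENNReal.ofReal ((T * ν)⁻¹))
    rw [← DSA_h_mul, mul_inv, ENNReal.ofReal_mul (inv_nonneg.2 hT.le), ENNReal.ofReal_inv_of_pos hT]
    have h1 : ENNReal.ofReal T * (ENNReal.ofReal T)⁻¹ = 1 :=
      ENNReal.mul_inv_cancel (by rwa [Ne, ENNReal.ofReal_eq_zero, not_le]) ENNReal.ofReal_ne_top
    calc DSA_h T ν * ENNReal.ofReal (ν⁻¹) = (ENNReal.ofReal T * (ENNReal.ofReal T)⁻¹) *
          (DSA_h T ν * ENNReal.ofReal (ν⁻¹)) := by rw [h1, one_mul]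
      _ = _ := by ring
  have hkTm : ∀ T : ℝ, Measurable fun ν : ℝ => DSA_h T ν * ENNReal.ofReal (ν⁻¹) := fun T =>
    (DSA_h_meas T).mul measurable_id.inv.ennreal_ofReal
  have hκ2T : ∀ T, 0 < T → Wf (fun ν => DSA_h T ν * ENNReal.ofReal (ν⁻¹)) =
      ENNReal.ofReal T * κ2 := by
    intro T hT
    have h1 := hw2 k2 T hk2m hT
    have h2 := hWfc (ENNReal.ofReal T) (fun ν => k2 (T * ν)) (hk2m.comp (measurable_const.mul
      measurable_id))
    have h3 : Wf (fun ν => k2 (T * ν)) = κ2 := by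
      rw [hκ2]
      exact h1
    rw [h3] at h2
    rw [← h2]
    refine tsum_congr fun Y => ?_
    congr 1
    funext g
    show w g Y * (DSA_h T (S.nu g Y) * ENNReal.ofReal ((S.nu g Y)⁻¹)) * _ = _
    rw [hkT T hT]
    ring
  -- on the shell
  have hshell : ∀ T, 0 < T → ∀ ν, DSA_h T ν ≠ 0 → T⁻¹ ≤ ν ∧ ν ≤ 2 / T := by
    intro T hT ν h0
    unfold DSA_h at h0
    by_cases hc : 1 ≤ T * ν ∧ T * ν ≤ 2
    · refine ⟨?_, ?_⟩
      · rw [inv_le_iff_one_le_mul₀ hT]
        linarith [hc.1]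
      · rw [le_div_iff₀ hT]
        linarith [hc.2]
    · rw [if_neg hc] at h0
      exact absurd rfl h0
  -- (A)
  have hA : ∀ T, 0 < T → J T ≤ ENNReal.ofReal I * (ENNReal.ofReal T * κ2) +
      ENNReal.ofReal (2 * C / T) * κ := by
    intro T hT
    rw [← hκ2T T hT, ← hκT T hT, hJ2 T, ← hWfc _ _ (hkTm T), ← hWfc _ _ (DSA_h_meas T),
      ← ENNReal.tsum_add]
    refine ENNReal.tsum_le_tsum fun Y => ?_
    rw [← lintegral_add_left ((hWfm _ (hkTm T) Y).const_mul _)]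
    refine lintegral_mono fun g => ?_
    by_cases hg : S.dl g = 0
    · simp only [hg, _root_.inv_zero, ENNReal.ofReal_zero, mul_zero]
      exact bot_le
    by_cases hh : DSA_h T (S.nu g Y) = 0
    · simp only [hh, mul_zero, zero_mul]
      exact bot_le
    obtain ⟨s, hs0, hs1, hs2, hs3⟩ := hsum g Y hg
    have hν := hnu0 g Y hg
    obtain ⟨hsh1, hsh2⟩ := hshell T hT _ hh
    have h1 : ENNReal.ofReal s ≤ ENNReal.ofReal ((S.nu g Y)⁻¹) * ENNReal.ofReal I +
        ENNReal.ofReal (2 * C / T) := by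
      rw [← ENNReal.ofReal_mul (inv_nonneg.2 hν.le), ← ENNReal.ofReal_add (by positivity)
        (by positivity)]
      apply ENNReal.ofReal_le_ofReal
      have h2 : C * S.nu g Y ≤ 2 * C / T := by
        calc C * S.nu g Y ≤ C * (2 / T) := mul_le_mul_of_nonneg_left hsh2 hCnn
          _ = 2 * C / T := by ring
      linarith
    rw [hs1]
    calc w g Y * DSA_h T (S.nu g Y) * ENNReal.ofReal s * ENNReal.ofReal ((S.dl g)⁻¹)
        ≤ w g Y * DSA_h T (S.nu g Y) * (ENNReal.ofReal ((S.nu g Y)⁻¹) * ENNReal.ofReal I +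
          ENNReal.ofReal (2 * C / T)) * ENNReal.ofReal ((S.dl g)⁻¹) := by gcongr
      _ = _ := by ring
  -- (B)
  have hB : ∀ T, 0 < T → ENNReal.ofReal I * (ENNReal.ofReal T * κ2) ≤
      J T + ENNReal.ofReal (2 * C / T) * κ := by
    intro T hT
    rw [← hκ2T T hT, ← hκT T hT, hJ2 T, ← hWfc _ _ (hkTm T), ← hWfc _ _ (DSA_h_meas T),
      ← ENNReal.tsum_add]
    refine ENNReal.tsum_le_tsum fun Y => ?_
    rw [← lintegral_add_right _ ((hWfm _ (DSA_h_meas T) Y).const_mul _)]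
    refine lintegral_mono fun g => ?_
    by_cases hg : S.dl g = 0
    · simp only [hg, _root_.inv_zero, ENNReal.ofReal_zero, mul_zero]
      exact bot_le
    by_cases hh : DSA_h T (S.nu g Y) = 0
    · simp only [hh, mul_zero, zero_mul]
      exact bot_le
    obtain ⟨s, hs0, hs1, hs2, hs3⟩ := hsum g Y hg
    have hν := hnu0 g Y hg
    obtain ⟨hsh1, hsh2⟩ := hshell T hT _ hh
    have h1 : ENNReal.ofReal ((S.nu g Y)⁻¹) * ENNReal.ofReal I ≤ ENNReal.ofReal s +
        ENNReal.ofReal (2 * C / T) := by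
      rw [← ENNReal.ofReal_mul (inv_nonneg.2 hν.le), ← ENNReal.ofReal_add hs0 (by positivity)]
      apply ENNReal.ofReal_le_ofReal
      have h2 : C * S.nu g Y ≤ 2 * C / T := by
        calc C * S.nu g Y ≤ C * (2 / T) := mul_le_mul_of_nonneg_left hsh2 hCnn
          _ = 2 * C / T := by ring
      linarith
    rw [hs1]
    calc ENNReal.ofReal I * (w g Y * (DSA_h T (S.nu g Y) * ENNReal.ofReal ((S.nu g Y)⁻¹)) *
          ENNReal.ofReal ((S.dl g)⁻¹))
        = w g Y * DSA_h T (S.nu g Y) * (ENNReal.ofReal ((S.nu g Y)⁻¹) * ENNReal.ofReal I) *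
          ENNReal.ofReal ((S.dl g)⁻¹) := by ring
      _ ≤ w g Y * DSA_h T (S.nu g Y) * (ENNReal.ofReal s + ENNReal.ofReal (2 * C / T)) *
          ENNReal.ofReal ((S.dl g)⁻¹) := by gcongr
      _ = _ := by ring
  -- `κ` is finite
  have hκfin : κ ≠ ⊤ := by
    obtain ⟨T0, hT01, hT0C⟩ : ∃ T0 : ℝ, 1 ≤ T0 ∧ 8 * C ≤ I * T0 := by
      refine ⟨max 1 (8 * C / I), le_max_left _ _, ?_⟩
      have h1 := le_max_right 1 (8 * C / I)
      rw [div_le_iff₀ hI0] at h1
      linarith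
    have hT0 : 0 < T0 := by linarith
    have h1 : ENNReal.ofReal (T0 * I / 4) * κ ≤ J T0 := by
      rw [← hκT T0 hT0, hJ2 T0, ← hWfc _ _ (DSA_h_meas T0)]
      refine ENNReal.tsum_le_tsum fun Y => ?_
      refine lintegral_mono fun g => ?_
      by_cases hg : S.dl g = 0
      · simp only [hg, _root_.inv_zero, ENNReal.ofReal_zero, mul_zero]
        exact le_rfl
      by_cases hh : DSA_h T0 (S.nu g Y) = 0
      · simp only [hh, mul_zero, zero_mul]
        exact le_rfl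
      obtain ⟨s, hs0, hs1, hs2, hs3⟩ := hsum g Y hg
      have hν := hnu0 g Y hg
      obtain ⟨hsh1, hsh2⟩ := hshell T0 hT0 _ hh
      have h2 : ENNReal.ofReal (T0 * I / 4) ≤ ENNReal.ofReal s := by
        apply ENNReal.ofReal_le_ofReal
        have h3 : C * S.nu g Y ≤ T0 * I / 4 := by
          have h4 : C * S.nu g Y ≤ C * (2 / T0) := mul_le_mul_of_nonneg_left hsh2 hCnn
          have h5 : C * (2 / T0) ≤ T0 * I / 4 := by
            rw [mul_div_assoc', div_le_iff₀ hT0]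
            nlinarith
          linarith
        have h6 : T0 / 2 ≤ (S.nu g Y)⁻¹ := by
          rw [le_inv_comm₀ (by positivity) hν, inv_div]
          exact hsh2
        nlinarith
      rw [hs1]
      calc ENNReal.ofReal (T0 * I / 4) * (w g Y * DSA_h T0 (S.nu g Y) *
            ENNReal.ofReal ((S.dl g)⁻¹))
          ≤ ENNReal.ofReal s * (w g Y * DSA_h T0 (S.nu g Y) * ENNReal.ofReal ((S.dl g)⁻¹)) := by
            gcongr
        _ = _ := by ring
    intro htop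
    rw [htop, ENNReal.mul_top (by
      rw [Ne, ENNReal.ofReal_eq_zero, not_le]
      positivity)] at h1
    exact hJfin T0 hT0 (top_le_iff.1 h1)
  have hκ2fin : κ2 ≠ ⊤ := by
    have h1 : κ2 ≤ κ := by
      rw [hκ2, hκ]
      refine ENNReal.tsum_le_tsum fun Y => ?_
      refine lintegral_mono fun g => ?_
      show w g Y * k2 (S.nu g Y) * _ ≤ w g Y * DSA_h 1 (S.nu g Y) * _
      have h2 : k2 (S.nu g Y) ≤ DSA_h 1 (S.nu g Y) := by
        rw [hk2]
        show DSA_h 1 (S.nu g Y) * ENNReal.ofReal ((S.nu g Y)⁻¹) ≤ _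
        by_cases hh : DSA_h 1 (S.nu g Y) = 0
        · rw [hh, zero_mul]
        · obtain ⟨hsh1, _⟩ := hshell 1 one_pos _ hh
          rw [inv_one] at hsh1
          have h3 : ENNReal.ofReal ((S.nu g Y)⁻¹) ≤ 1 := by
            rw [← ENNReal.ofReal_one]
            exact ENNReal.ofReal_le_ofReal (inv_le_one_of_one_le₀ hsh1)
          calc DSA_h 1 (S.nu g Y) * ENNReal.ofReal ((S.nu g Y)⁻¹) ≤ DSA_h 1 (S.nu g Y) * 1 := by
                gcongr
            _ = _ := mul_one _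
      gcongr
    exact ne_top_of_le_ne_top hκfin h1
  refine ⟨I * κ2.toReal, 2 * C * κ.toReal, fun T hT => ?_⟩
  have hT0 : 0 < T := by linarith
  have hfin := hJfin T hT0
  have hsm : Summable (fun Y : S.LY => S.PhiF f (T / S.ix Y)) := by
    have h1 := ENNReal.summable_toReal hfin
    refine h1.congr fun Y => ?_
    exact ENNReal.toReal_ofReal (hPnn _)
  refine ⟨hsm, ?_⟩
  have hJr : (J T).toReal = ∑' Y : S.LY, S.PhiF f (T / S.ix Y) := by
    show (∑' Y : S.LY, ENNReal.ofReal (S.PhiF f (T / S.ix Y))).toReal = _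
    rw [ENNReal.tsum_toReal_eq fun Y => ENNReal.ofReal_ne_top]
    exact tsum_congr fun Y => ENNReal.toReal_ofReal (hPnn _)
  rw [← hJr]
  have hκr : 0 ≤ κ.toReal := ENNReal.toReal_nonneg
  have hCT : 2 * C / T * κ.toReal ≤ 2 * C * κ.toReal := by
    apply mul_le_mul_of_nonneg_right _ hκr
    rw [div_le_iff₀ hT0]
    nlinarith
  have hm1 : ENNReal.ofReal I * (ENNReal.ofReal T * κ2) ≠ ⊤ :=
    ENNReal.mul_ne_top ENNReal.ofReal_ne_top (ENNReal.mul_ne_top ENNReal.ofReal_ne_top hκ2fin)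
  have hm2 : ENNReal.ofReal (2 * C / T) * κ ≠ ⊤ := ENNReal.mul_ne_top ENNReal.ofReal_ne_top hκfin
  have hr1 : (ENNReal.ofReal I * (ENNReal.ofReal T * κ2)).toReal = I * κ2.toReal * T := by
    rw [ENNReal.toReal_mul, ENNReal.toReal_mul, ENNReal.toReal_ofReal hI0.le,
      ENNReal.toReal_ofReal hT0.le]
    ring
  have hr2 : (ENNReal.ofReal (2 * C / T) * κ).toReal = 2 * C / T * κ.toReal := by
    rw [ENNReal.toReal_mul, ENNReal.toReal_ofReal (by positivity)]
  rw [abs_le]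
  constructor
  · have h1 := ENNReal.toReal_mono (ENNReal.add_ne_top.2 ⟨hfin, hm2⟩) (hB T hT0)
    rw [ENNReal.toReal_add hfin hm2, hr1, hr2] at h1
    linarith
  · have h1 := ENNReal.toReal_mono (ENNReal.add_ne_top.2 ⟨hm1, hm2⟩) (hA T hT0)
    rw [ENNReal.toReal_add hm1 hm2, hr1, hr2] at h1
    linarith

end Pool.Agent.BRZ
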